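import Pool.Agent.Q136.FracTransEx

/-!
# MP_dde4b6_co: Staller may have no optimal integer move after an integer move of Edge-hitter

FinHypergraph: the path `1 - 2 - 3 - 4` with loops at `1` and `4`, a loop `0`, a loop `5` and the edge
`56`.  Edge-hitter plays `(5, 1)`.  Staller guarantees `17/4` by putting `1/2` on `2` and `1/2` on
`0`, but after each legal integer move of hers Edge-hitter ends the game with weight at most `3`.
-/

namespace Pool.Agent.Results.MP_dde4b6_co.NoIntegerReply

open Pool.Agent.Q136.FracTrans

/-- `IntegerPlay H t l t'`: starting from the cover function `t`, the successive integer moves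
`(v, 1)`, `v` running through the list `l`, are legal (and the game is not over before each of
them), and they lead to the cover function `t'`. -/
inductive IntegerPlay {V : Type} (H : FinHypergraph V) : (V → ℝ) → List V → (V → ℝ) → Prop
  | nil (t : V → ℝ) : IntegerPlay H t [] t
  | cons (t t' : V → ℝ) (v : V) (l : List V) : ¬ FullyCovered H t → Legal H t (intMove v) →
      IntegerPlay H ((intMove v).apply t) l t' → IntegerPlay H t (v :: l) t'

/-- The move `m` of Staller is optimal in the position `t`: its weight plus the value after it
(Edge-hitter to move) is the value of the position (Staller to move). -/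
def OptimalMove {V : Type} (H : FinHypergraph V) (t : V → ℝ) (m : Move V) : Prop :=
  m.total + value H Player.hitter (m.apply t) = value H Player.staller t

/-- There are a hypergraph and a play of the fractional transversal game from the zero cover
function whose first `2k - 1` moves (Edge-hitter starts) are integer moves, after which the
hypergraph is not fully covered and no legal integer move of Staller is optimal.  Moreover Staller
can guarantee `17/4` in this position, and after each legal integer move of hers Edge-hitter can
guarantee that at most `3` is added. -/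
theorem result : ∃ (H : FinHypergraph (Fin 7)) (k : ℕ) (l : List (Fin 7)) (t : Fin 7 → ℝ),
    1 ≤ k ∧ l.length = 2 * k - 1 ∧ IntegerPlay H (fun _ => 0) l t ∧ ¬ FullyCovered H t ∧
    (∀ v : Fin 7, Legal H t (intMove v) → ¬ OptimalMove H t (intMove v)) ∧
    StallerCan H Player.staller t (17 / 4) ∧
    (∀ v : Fin 7, Legal H t (intMove v) → HitterCan H Player.hitter ((intMove v).apply t) 3) := by
  have hup : ∀ v : Fin 7, Legal Ex.H Ex.tq (intMove v) →
      HitterCan Ex.H Player.hitter ((intMove v).apply Ex.tq) 3 := by
    intro v hv
    obtain ⟨h5, h6⟩ := Ex.int_legal_tq hv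
    rw [intMove_apply]
    exact Ex.hitter_t2 v h5 h6
  refine ⟨Ex.H, 1, [5], Ex.tq, le_refl _, rfl, ?_, Ex.tq_not_covered, ?_, Ex.staller_tq, hup⟩
  · have hcov : ¬ FullyCovered Ex.H (fun _ => (0 : ℝ)) := by
      rw [Ex.covered_iff]; norm_num
    have happ : (intMove (5 : Fin 7)).apply (fun _ => (0 : ℝ)) = Ex.tq := by
      rw [intMove_apply]
      funext u
      unfold Ex.tq
      by_cases h : u = 5
      · simp [h]
      · rw [if_neg h, if_neg (fun h' => h h'.symm)]; ring
    refine IntegerPlay.cons _ _ _ _ hcov (intMove_legal Ex.e5 (by simp) (by simp [Ex.load5])) ?_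
    rw [happ]
    exact IntegerPlay.nil _
  · intro v hv hopt
    unfold OptimalMove at hopt
    rw [intMove_total] at hopt
    have h1 := Ex.value_le (hup v hv)
    have h2 := Ex.le_value Ex.tq_nonneg Ex.staller_tq
    linarith

end Pool.Agent.Results.MP_dde4b6_co.NoIntegerReply
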